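import Mathlib
import Pool.Agent.H215Z.LE.Defs
import Pool.Agent.H215Z.LE.Cex

set_option autoImplicit false
open MeasureTheory

namespace Pool.Agent.Results.MP_d98278_an.ADiscontinuity

open H215LE

/-- For the alphabet `ℝ` and range `N = 1` there is a pair `(A, p)` with `λ₊(A, p) = log 2` such
that every basic neighbourhood `V(A, p, γ, Z)` contains a pair `(B, q)` with `λ₊(B, q) = 0`. -/
theorem result : ∃ (p : Measure ℝ) (_ : IsProbabilityMeasure p) (A : Cocycle ℝ 1),
    IsTopExp A p (Real.log 2) ∧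
    ∀ γ : ℝ, 0 < γ → ∀ Z : Set ℝ, MeasurableSet Z → p Z = 1 →
      ∃ (B : Cocycle ℝ 1) (q : Measure ℝ) (_ : IsProbabilityMeasure q),
        cocDist A B < γ ∧ q Z = 1 ∧ tvDist p q < γ ∧ IsTopExp B q 0 :=
  H215LE.Cex.main

end Pool.Agent.Results.MP_d98278_an.ADiscontinuity
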