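import Mathlib
import Pool.Agent.H215Z.LE.Defs
import Pool.Agent.H215Z.LE.Bridge

set_option autoImplicit false
open MeasureTheory

namespace Pool.Agent.Results.MP_d98278_an.BContinuity

open H215LE

/-- For every alphabet `X`, range `N` and pair `(A, p)`, the extremal exponents are continuous at
`(A, p)` when the neighbourhoods are cut out by `d(A,B) < γ`, `d(p,q) < γ` and `q^ℤ(Z) = 1` for a
set `Z` of full `p^ℤ`-measure that depends on finitely many coordinates. -/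
theorem result (X : Type) [MeasurableSpace X] (N : ℕ) (A : Cocycle X N) (p : Measure X)
    [IsProbabilityMeasure p] :
    ∃ a a' : ℝ, IsTopExp A p a ∧ IsBotExp A p a' ∧
      ∀ ε : ℝ, 0 < ε → ∃ γ : ℝ, 0 < γ ∧ ∃ Z : Set (ℤ → X), MeasurableSet Z ∧
        (∃ K : ℕ, ∀ x x' : ℤ → X, (∀ i : ℤ, |i| ≤ K → x i = x' i) → (x ∈ Z ↔ x' ∈ Z)) ∧
        bern p Z = 1 ∧
        ∀ (B : Cocycle X N) (q : Measure X) [IsProbabilityMeasure q],
          cocDist A B < γ → bern q Z = 1 → tvDist p q < γ →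
          ∃ b b' : ℝ, IsTopExp B q b ∧ IsBotExp B q b' ∧ |a - b| < ε ∧ |a' - b'| < ε := by
  obtain ⟨a, a', ha, ha'⟩ := exps_exist A p
  refine ⟨a, a', ha, ha', fun ε hε => ?_⟩
  obtain ⟨γ, hγ, Z, h1, h2, h3, H⟩ := cont_main A p hε
  refine ⟨γ, hγ, Z, h1, h2, h3, fun B q _ c1 c2 c3 => ?_⟩
  obtain ⟨b, b', hb, hb'⟩ := exps_exist B q
  exact ⟨b, b', hb, hb', H B q c1 c3 (Or.inl c2) a b a' b' ha hb ha' hb'⟩

end Pool.Agent.Results.MP_d98278_an.BContinuity
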