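import Mathlib
import Pool.Agent.H215Z.LE.Defs
import Pool.Agent.H215Z.LE.Bridge

set_option autoImplicit false
open MeasureTheory

namespace Pool.Agent.Results.MP_d98278_an.CAtomic

open H215LE

/-- If `p` is carried by a countable set, the extremal exponents are continuous at `(A, p)` in
the topology with basic neighbourhoods `V(A, p, γ, Z)`, `Z ⊆ X`, for every range `N`. -/
theorem result (X : Type) [MeasurableSpace X] [MeasurableSingletonClass X] (N : ℕ)
    (A : Cocycle X N) (p : Measure X) [IsProbabilityMeasure p]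
    (hp : ∃ S : Set X, S.Countable ∧ p S = 1) :
    ∃ a a' : ℝ, IsTopExp A p a ∧ IsBotExp A p a' ∧
      ∀ ε : ℝ, 0 < ε → ∃ γ : ℝ, 0 < γ ∧ ∃ Z : Set X, MeasurableSet Z ∧ p Z = 1 ∧
        ∀ (B : Cocycle X N) (q : Measure X) [IsProbabilityMeasure q],
          cocDist A B < γ → q Z = 1 → tvDist p q < γ →
          ∃ b b' : ℝ, IsTopExp B q b ∧ IsBotExp B q b' ∧ |a - b| < ε ∧ |a' - b'| < ε := by
  obtain ⟨a, a', ha, ha'⟩ := exps_exist A p
  obtain ⟨S, hS, hS'⟩ := hp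
  refine ⟨a, a', ha, ha', fun ε hε => ?_⟩
  obtain ⟨γ, hγ, Z, h1, h2, H⟩ := cont_atomic A p hS hS' hε
  refine ⟨γ, hγ, Z, h1, h2, fun B q _ c1 c2 c3 => ?_⟩
  obtain ⟨b, b', hb, hb'⟩ := exps_exist B q
  exact ⟨b, b', hb, hb', H B q c1 c2 c3 a b a' b' ha hb ha' hb'⟩

end Pool.Agent.Results.MP_d98278_an.CAtomic
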